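import Pool.Agent.NH57.BL.Asm
import Pool.Agent.NH57.BK.Tr

/-!
# The proportion of the good `D` in the class of the `D = 1` modulo eight
-/

set_option autoImplicit false

open scoped Classical

namespace Pool.Agent.NH6.SC

open Finset Filter
open Pool.Agent.Y698
open Pool.Agent.Y698.SG hiding PD
open Pool.Agent.R426.QK
open Pool.Agent.R426.QC (e6 e3)
open Pool.Agent.NH57.BO

theorem dq5 : S_DQ5 :=
  t_ASY5 recP t_BIL EQ.t_EQ t_LAX t_BOX5 t_KEY5 CNT.t_CNT (t_FB5 recP t_SUP5 t_HALL5 t_MERT)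
    (FB.t_FEW t_HALL t_MERT) low5 MOM.t_C2

/-- the condition modulo eight -/
lemma eight_iff (x : RR) : (8 : RR) ∣ x ↔ e6 x = 0 ∧ e3 x = 0 := by
  constructor
  · rintro ⟨c, rfl⟩
    have h8 : ((8 : ZMod 8)) = 0 := by decide
    constructor
    · rw [map_mul, map_ofNat, h8, zero_mul]
    · rw [map_mul, map_ofNat, h8, zero_mul]
  · rintro ⟨h1, h2⟩
    rw [Pool.Agent.R426.QC.eight_eq]
    have hco : IsCoprime aR (cj aR) := ⟨1, 1, by rw [Pool.Agent.R426.QC.cj_aR]; ring⟩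
    exact (hco.pow).mul_dvd (Pool.Agent.R426.QC.e6_zero h1) (Pool.Agent.R426.QC.e3_zero h2)

lemma cls00 (D : RR) : ClsE5 0 0 D ↔ ClsE D ∧ (8 : RR) ∣ D - 1 := by
  unfold ClsE5
  refine and_congr_right fun h => ?_
  obtain ⟨-, ⟨J, hJ⟩, -⟩ := h
  have hD : ∃ J : RR, D = 1 + 4 * J := ⟨J, by linear_combination hJ⟩
  have h01 : ¬ ((0 : ZMod 2) = 1) := by decide
  have h15 : ¬ ((1 : ZMod 8) = 5) := by decide
  rw [eight_iff, map_sub, map_sub, map_one, map_one, sub_eq_zero, sub_eq_zero]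
  simp only [h01, iff_false]
  rcases Pool.Agent.R426.QC.cl6 hD with h6 | h6 <;> rcases Pool.Agent.R426.QC.cl3 hD with h3 | h3 <;>
    rw [h6, h3] <;> decide

lemma gd_of {S : Finset RR} (h : Gd5 0 0 1 0 S) : Gd S := by
  intro v hv
  refine (h v 0 ⟨fun π hπ => ?_, by ring⟩).1
  rw [zero_mul, add_zero]
  exact hv π hπ

/-- the elements congruent to `1` modulo eight -/
def Fam8 (X : ℕ) : Set RR := {D | nrm D ≤ X ∧ ClsE D ∧ (8 : RR) ∣ D - 1}

lemma fam8_ncard (X : ℕ) (Q : Finset RR → Prop) :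
    {D ∈ Fam8 X | Q (PD D)}.ncard = ((SS5 0 0 X).filter Q).card := by
  rw [← t_NS5' t_SUP5 0 0 X Q]
  congr 1
  ext D
  simp only [Fam8, Set.mem_ofPred_eq, cls00]
  tauto

/-- **The proportion.** -/
theorem den8 (P : RR → Prop) (hP : ∀ D, ClsE D → (8 : RR) ∣ D - 1 → Gd (PD D) → P D) :
    (∀ x : ℝ, x < c2 → ∀ᶠ X : ℕ in atTop,
      x < (({D ∈ Fam8 X | P D}).ncard : ℝ) / ((Fam8 X).ncard : ℝ)) ∧
    ∃ δ : ℝ, 0 < δ ∧ ∀ᶠ X : ℕ in atTop, δ * X ≤ (({D ∈ Fam8 X | P D}).ncard : ℝ) := by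
  have h1 := dq5 0 0 1 0 (Or.inl one_ne_zero)
  have e1 : ∀ X : ℕ, (Fam8 X).ncard = (SS5 0 0 X).card := by
    intro X
    have h := fam8_ncard X (fun _ => True)
    simpa using h
  have e2 : ∀ X : ℕ, ((SS5 0 0 X).filter (Gd5 0 0 1 0)).card ≤ ({D ∈ Fam8 X | P D}).ncard := by
    intro X
    rw [← fam8_ncard X (Gd5 0 0 1 0)]
    refine Set.ncard_le_ncard ?_ ((fin_norm_le X).subset fun D h => h.1.1)
    rintro D ⟨h2, h3⟩
    exact ⟨h2, hP D h2.2.1 h2.2.2 (gd_of h3)⟩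
  have e3 : ∀ X : ℕ, (((SS5 0 0 X).filter (Gd5 0 0 1 0)).card : ℝ) / ((SS5 0 0 X).card : ℝ) ≤
      (({D ∈ Fam8 X | P D}).ncard : ℝ) / ((Fam8 X).ncard : ℝ) := by
    intro X
    rw [e1 X]
    exact div_le_div_of_nonneg_right (Nat.cast_le.2 (e2 X)) (Nat.cast_nonneg _)
  constructor
  · intro x hx
    filter_upwards [h1.eventually_const_lt hx] with X hX
    exact lt_of_lt_of_le hX (e3 X)
  · obtain ⟨c, X₀, hc, hX₀⟩ := low5 0 0
    obtain ⟨-, hc2, -⟩ := MOM.t_C2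
    refine ⟨c2 / 2 * c, by positivity, ?_⟩
    filter_upwards [h1.eventually_const_lt (half_lt_self hc2), eventually_ge_atTop X₀] with X hX hX1
    have h4 := hX₀ X hX1
    have h5 : (0 : ℝ) < ((SS5 0 0 X).card : ℝ) := by
      rcases (Nat.cast_nonneg (SS5 0 0 X).card : (0 : ℝ) ≤ _).lt_or_eq with h | h
      · exact h
      · rw [← h, div_zero] at hX
        exact absurd hX (not_lt.2 (by positivity))
    rw [lt_div_iff₀ h5] at hX
    have h6 : c2 / 2 * c * X ≤ c2 / 2 * ((SS5 0 0 X).card : ℝ) := by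
      have := mul_le_mul_of_nonneg_left h4 (by positivity : (0 : ℝ) ≤ c2 / 2)
      linarith
    exact (h6.trans hX.le).trans (Nat.cast_le.2 (e2 X))

end Pool.Agent.NH6.SC
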