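import Pool.Agent.NH6.SC.Loc
import Pool.Agent.R384.Y.Sch
import Pool.Agent.NH57.BK.Alg
import Pool.Agent.NH57.BK.Tr
import Pool.Agent.NH57.BK.H90
import Pool.Agent.NH57.BL.SUP2
import Pool.Agent.NH57.BL.TrG
import Pool.Agent.NH57.BL.FreA8
import Pool.Agent.NH57.BL.FreB8
import Pool.Agent.NH57.BL.Val8
import Pool.Agent.NH57.BL.Mod8
import Pool.Agent.NH57.BL.ModG
import Pool.Agent.NH57.BL.StrG
import Pool.Agent.NH57.BL.ValG
import Pool.Agent.NH57.BL.FreAG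
import Pool.Agent.NH57.BL.FreBG
import Pool.Agent.NH57.BL.AlgG
import Pool.Agent.NH57.BL.MainG

/-!
# Schneider's conjecture over the fields between `K` and `K(√-1, √m)`, `m = √-7 D`
-/

set_option autoImplicit false
set_option linter.unusedSectionVars false
set_option linter.unusedVariables false

namespace Pool.Agent.NH6.SC

open Pool.Agent.R384
open Pool.Agent.Y715.Red Pool.Agent.Y715.Nr Pool.Agent.W237.RK
open Pool.Agent.Y715.Gi (QB KK GK)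
open Pool.Agent.Y715.Df (Cmp exists_cmp)
open Pool.Agent.NH57.BK

open scoped Classical

variable {i₀ : QB} (hi : i₀ ^ 2 = i₀ - 2)

/-- the classes over the field fixed by `H` that are trivial on the inertia groups of the odd places
and on the decomposition groups of all the places above two are trivial -/
def VanB (χ : GK i₀ →* ℤ_[2]ˣ) (H : Subgroup (GK i₀)) : Prop :=
  ∀ c : GK i₀ → ℚ_[2], CocOn χ H c →
    (∀ (p : ℕ) [Fact p.Prime] (ι : QB →ₐ[ℚ] PadicAlgCl p), p ≠ 2 →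
      ∃ y : ℚ_[2], ∀ σ ∈ II ι, σ ∈ H → c σ = (vl χ σ - 1) * y) →
    (∀ ι : QB →ₐ[ℚ] PadicAlgCl 2,
      ∃ y : ℚ_[2], ∀ σ ∈ DD ι, σ ∈ H → c σ = (vl χ σ - 1) * y) →
    ∃ y : ℚ_[2], ∀ σ ∈ H, c σ = (vl χ σ - 1) * y

/-- **The step.** -/
theorem VanB.step {χ : GK i₀ →* ℤ_[2]ˣ} {ε : GK i₀ →* ℤˣ} {G' : Subgroup (GK i₀)}
    (hop : ∀ u : ℤˣ, IsOpen {g | ε g = u}) (h1 : VanB χ G')
    (h2 : VanB (χ * sgc ε) G') : VanB χ (kr ε G') := by
  by_cases hG : ∃ t ∈ G', ε t = -1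
  · obtain ⟨t, ht, hε⟩ := hG
    intro c hc hodd hstr
    have hc' : ∀ σ ∈ kr ε G', ∀ τ ∈ kr ε G', c (σ * τ) = c σ + vl (χ * sgc ε) σ * c τ := by
      intro σ hσ τ hτ
      rw [vl_sgc_pos (mem_kr.1 hσ).2]
      exact hc.mul σ hσ τ hτ
    obtain ⟨y₁, hy₁⟩ := h1 (cor χ ε t c) ⟨cor_cont ht hε hop hc.cont,
        fun σ hσ τ hτ => cor_mul ht hε hc.mul hσ hτ⟩ (by
      intro p _ ι hp
      obtain ⟨y, hy⟩ := hodd p ι hp
      obtain ⟨y', hy'⟩ := hodd p (cι ι t) hp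
      exact cor_loc (I := IIs ι) ht hε hc.mul (fun σ h3 h4 => hy σ h3 h4) (fun σ h3 h4 => by
        rw [hy' _ (II_conj h3) (conj_kr ht hε h4), vl_conj])) (by
      intro ι
      obtain ⟨y, hy⟩ := hstr ι
      obtain ⟨y', hy'⟩ := hstr (cι ι t)
      exact cor_loc (I := DDs ι) ht hε hc.mul (fun σ h3 h4 => hy σ h3 h4) (fun σ h3 h4 => by
        rw [hy' _ (DD_conj h3) (conj_kr ht hε h4), vl_conj]))
    obtain ⟨y₂, hy₂⟩ := h2 (cor (χ * sgc ε) ε t c) ⟨cor_cont ht hε hop hc.cont,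
        fun σ hσ τ hτ => cor_mul ht hε hc' hσ hτ⟩ (by
      intro p _ ι hp
      obtain ⟨y, hy⟩ := hodd p ι hp
      obtain ⟨y', hy'⟩ := hodd p (cι ι t) hp
      exact cor_loc (I := IIs ι) ht hε hc' (fun σ h3 h4 => by
        rw [vl_sgc_pos (mem_kr.1 h4).2]
        exact hy σ h3 h4) (fun σ h3 h4 => by
        rw [vl_sgc_pos (mem_kr.1 h4).2, hy' _ (II_conj h3) (conj_kr ht hε h4), vl_conj])) (by
      intro ι
      obtain ⟨y, hy⟩ := hstr ι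
      obtain ⟨y', hy'⟩ := hstr (cι ι t)
      exact cor_loc (I := DDs ι) ht hε hc' (fun σ h3 h4 => by
        rw [vl_sgc_pos (mem_kr.1 h4).2]
        exact hy σ h3 h4) (fun σ h3 h4 => by
        rw [vl_sgc_pos (mem_kr.1 h4).2, hy' _ (DD_conj h3) (conj_kr ht hε h4), vl_conj]))
    refine ⟨(y₁ + y₂) / 2, fun σ hσ => ?_⟩
    obtain ⟨g1, g2⟩ := mem_kr.1 hσ
    have e1 := hy₁ σ g1
    have e2 := hy₂ σ g1
    unfold cor at e1 e2
    rw [if_pos g2] at e1 e2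
    rw [vl_sgc_neg hε, vl_sgc_pos g2] at e2
    have h2 : (2 : ℚ_[2]) ≠ 0 := two_ne_zero
    field_simp
    linear_combination e1 + e2
  · push Not at hG
    have e : kr ε G' = G' := by
      ext σ
      constructor
      · exact fun h => (mem_kr.1 h).1
      · intro h
        refine mem_kr.2 ⟨h, ?_⟩
        rcases Int.units_eq_one_or (ε σ) with h3 | h3
        · exact h3
        · exact absurd h3 (hG σ h)
    rwa [e]

/-- a smaller field -/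
theorem VanB.down {χ : GK i₀ →* ℤ_[2]ˣ} {H' H : Subgroup (GK i₀)} (hle : H' ≤ H)
    (hn : ∀ g ∈ H, ∀ x ∈ H', g⁻¹ * x * g ∈ H') {x : GK i₀} (hx : x ∈ H') (hx1 : vl χ x ≠ 1)
    (h : VanB χ H') : VanB χ H := by
  intro c hc hodd hstr
  obtain ⟨y, hy⟩ := h c ⟨hc.cont.mono hle, fun σ hσ τ hτ => hc.mul σ (hle hσ) τ (hle hτ)⟩
    (fun p _ ι hp => by
      obtain ⟨y, hy⟩ := hodd p ι hp
      exact ⟨y, fun σ h1 h2 => hy σ h1 (hle h2)⟩) (fun ι => by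
      obtain ⟨y, hy⟩ := hstr ι
      exact ⟨y, fun σ h1 h2 => hy σ h1 (hle h2)⟩)
  refine ⟨y, fun g hg => ?_⟩
  have h1 := hc.mul x (hle hx) g hg
  have hx' : g⁻¹ * x * g ∈ H' := hn g hg x hx
  have h2 := hc.mul g hg _ (hle hx')
  have e : g * (g⁻¹ * x * g) = x * g := by group
  rw [e, hy _ hx'] at h2
  rw [hy x hx] at h1
  have e2 : vl χ (g⁻¹ * x * g) = vl χ x := vl_conj g x
  rw [e2] at h2
  have h3 : (vl χ x - 1) * (c g - (vl χ g - 1) * y) = 0 := by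
    linear_combination h2 - h1
  rcases mul_eq_zero.1 h3 with h4 | h4
  · exact absurd (sub_eq_zero.1 h4) hx1
  · exact sub_eq_zero.1 h4

include hi in
/-- the characters unramified outside two -/
theorem vanB_unr {χ : GK i₀ →* ℤ_[2]ˣ} (hχ : Continuous χ) (hu : Unr χ) :
    VanB χ (⊤ : Subgroup (GK i₀)) := by
  intro c hc hodd hstr
  obtain ⟨y, hy⟩ := vanish_unr hi hχ hu (ϖ := om) (ϖ' := 1 - om) (Or.inl ⟨rfl, rfl⟩) (c := c)
    ⟨continuousOn_univ.1 (by simpa using hc.cont), fun σ τ =>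
      hc.mul σ (Subgroup.mem_top σ) τ (Subgroup.mem_top τ)⟩ (fun p _ ι hp => by
      obtain ⟨y, hy⟩ := hodd p ι hp
      exact ⟨y, fun σ hσ => hy σ hσ (Subgroup.mem_top σ)⟩) (fun ι _ => by
      obtain ⟨y, hy⟩ := hstr ι
      exact ⟨y, fun σ hσ => hy σ hσ (Subgroup.mem_top σ)⟩)
  exact ⟨y, fun σ _ => hy σ⟩

/-- the characters `ω ^ k χ_d`, `d = ± √-7 P` -/
def Tw (i₀ : QB) (hi : i₀ ^ 2 = i₀ - 2) (P : OO) : Prop :=
  ∀ d : OO, (d = s7 * P ∨ d = -(s7 * P)) → ∀ (s : QB) (hs0 : s ≠ 0)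
    (hs : ∀ σ : GK i₀, σ s = s ∨ σ s = -s), s ^ 2 = em hi d → ∀ k : ℤ,
    VanB (cyc i₀ ^ k * sgc (es hs0 hs)) (⊤ : Subgroup (GK i₀))

/-- from the vanishing for all the characters of this kind -/
lemma tw_of {P : OO}
    (key : ∀ {m : OO} {t : QB} {χ : GK i₀ →* ℤ_[2]ˣ}, ChiD hi χ m t →
      (m = s7 * P ∨ m = -(s7 * P)) → ∀ {c : GK i₀ → ℚ_[2]}, Coc χ c →
      (∀ (p : ℕ) [Fact p.Prime] (ι : QB →ₐ[ℚ] PadicAlgCl p), p ≠ 2 → CobOn χ (II ι) c) →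
      (∀ ι : QB →ₐ[ℚ] PadicAlgCl 2, CobOn χ (DD ι) c) →
      ∃ y : ℚ_[2], ∀ σ, c σ = (vl χ σ - 1) * y) : Tw i₀ hi P := by
  intro d hd s hs0 hs hsd k
  obtain ⟨m, t, hm, cd⟩ := chiC hi hs0 hs hsd k
  have hm' : m = s7 * P ∨ m = -(s7 * P) := by
    rcases hm with rfl | rfl
    · exact hd
    · rcases hd with h | h
      · right; rw [h]
      · left; rw [h, neg_neg]
  intro c hc hodd hstr
  obtain ⟨y, hy⟩ := key cd hm' (c := c)
    ⟨continuousOn_univ.1 (by simpa using hc.cont), fun σ τ =>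
      hc.mul σ (Subgroup.mem_top σ) τ (Subgroup.mem_top τ)⟩
    (fun p _ ι hp => by
      obtain ⟨y, hy⟩ := hodd p ι hp
      exact ⟨y, fun σ hσ => hy σ hσ (Subgroup.mem_top σ)⟩)
    (fun ι => by
      obtain ⟨y, hy⟩ := hstr ι
      exact ⟨y, fun σ hσ => hy σ hσ (Subgroup.mem_top σ)⟩)
  exact ⟨y, fun σ _ => hy σ⟩

/-- the case that `D` is `1` modulo eight: the matrix `M` is not singular -/
theorem tw_one {S : Finset OO} (hS : GoodS S) (h8 : (8 : OO) ∣ ∏ q ∈ S, q - 1) :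
    Tw i₀ hi (∏ q ∈ S, q) := by
  refine tw_of hi (fun {m t χ} cd hm {c} hcc hodd' hstr' => ?_)
  rcases hm with h | h
  · exact core2 hi t_ALG t_REC hS h8 cd (ϖ := 1 - om) (ϖ' := om) (w4 := 3) (by decide)
      (Or.inr ⟨h, rfl, rfl, rfl⟩) hcc hodd' hstr'
  · exact core2 hi t_ALG t_REC hS h8 cd (ϖ := om) (ϖ' := 1 - om) (w4 := 2) (by decide)
      (Or.inl ⟨h, rfl, rfl, rfl⟩) hcc hodd' hstr'

open Pool.Agent.NH57.BH Pool.Agent.NH57.BG in
/-- the case that `M` and the bordered matrix are not singular, for all classes modulo eight -/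
theorem tw_all {x y : ZMod 2} {S : Finset OO} (hT : GoodX x y S) : Tw i₀ hi (∏ q ∈ S, q) := by
  have hM := fun ι : QB →ₐ[ℚ] PadicAlgCl 2 => t_MODG hi ι _ x y hT.gs.one hT.six hT.three
  refine tw_of hi (fun {m t χ} cd hm {c} hcc hodd' hstr' => ?_)
  rcases hm with rfl | rfl
  · refine MnG.core hi t_RED8 t_STRG (t_FREB8 (t_FREA8 t_H90 t_VAL8))
      (t_FREBG (t_FREAG t_H90 t_VALG)) t_ALGG t_REC (t_SUPO Pool.Agent.NH57.BO.t_SUP5)
      hT cd (w4 := 3) (by decide) (w8 := 6)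
      e6 (Or.inr ⟨rfl, rfl, rfl, rfl, rfl, rfl⟩) (fun ι hι => (hM ι).2 hι)
      (fun ι hι => MnG.m15_of ((hM ι).1 hι)) hcc hodd' (fun ι _ => hstr' ι)
  · refine MnG.core hi t_RED8 t_STRG (t_FREB8 (t_FREA8 t_H90 t_VAL8))
      (t_FREBG (t_FREAG t_H90 t_VALG)) t_ALGG t_REC (t_SUPO Pool.Agent.NH57.BO.t_SUP5)
      hT cd (w4 := 2) (by decide) (w8 := 3)
      e3 (Or.inl ⟨rfl, rfl, rfl, rfl, rfl, rfl⟩) (fun ι hι => (hM ι).1 hι) (fun ι hι => ?_)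
      hcc hodd' (fun ι _ => hstr' ι)
    rw [neg_neg]
    exact MnG.m15_of ((hM ι).2 hι)

end Pool.Agent.NH6.SC
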