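import Pool.Agent.NH57.BK.Main
import Pool.Agent.R384.X.Main7

/-!
# Schneider's conjecture over `K(√m)`, `m = ± √-7 D`, `K = ℚ(√-7)`: the vanishing theorem over `K`

The classes that are trivial at both places above two.  Compare `Pool/Agent/NH57/BK/Main.lean`.
-/

set_option autoImplicit false
set_option linter.unusedSectionVars false
set_option linter.unusedVariables false

namespace Pool.Agent.NH6.SC

open Pool.Agent.R384
open Pool.Agent.Y676.IS (Cu)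
open Pool.Agent.Y715.Red Pool.Agent.Y715.Nr Pool.Agent.W237.RK
open Pool.Agent.Y715.Gi (QB KK GK)
open Pool.Agent.Y715.Df (Cmp)
open Pool.Agent.NH57.BK

open scoped Classical

variable {i₀ : QB} (hi : i₀ ^ 2 = i₀ - 2) {χ : GK i₀ →* ℤ_[2]ˣ} {m : OO} {r : QB}

/-- the local condition at the other place -/
lemma loc_other (cd : ChiD hi χ m r) {c : GK i₀ → ℚ_[2]} (hc1 : ∀ σ, ‖c σ‖ ≤ 1)
    {ϖ : OO} (hϖ : Prime ϖ) {ι : QB →ₐ[ℚ] PadicAlgCl 2} (hι : ‖em (iw hi ι) ϖ‖ < 1)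
    (hϖm : ¬ ϖ ∣ m) {σ₀ : GK i₀} (h0 : σ₀ ∈ (DD ι : Set (GK i₀))) (h2 : σ₀ r = -r)
    (hD : CobOn χ (DD ι) c) {δ : OO} (hδ : Squarefree δ) {s : QB}
    (hs : s ^ 2 = em hi δ) (hk : ∀ σ : GK i₀, σ s = s ↔ md c σ = 0) : ¬ ϖ ∣ δ := by
  have hsq : (ι s) ^ 2 = em (iw hi ι) δ := by rw [← map_pow, hs, ι_em]
  rcases loc_dich hi cd hc1 hD h0 h2 hs hk with h | h
  · exact not_dvd_of_fix (iw hi ι) hϖ hι hδ hsq fun τ _ hτ => fix_D h τ hτ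
  · have hsr : (ι (s * r)) ^ 2 = em (iw hi ι) (δ * m) := by
      rw [← map_pow, mul_pow, hs, cd.hr, ← map_mul, ι_em]
    rintro ⟨t, ht⟩
    have h4 : ¬ ϖ ∣ t := by
      rintro ⟨v, rfl⟩
      exact hϖ.not_isUnit (hδ ϖ ⟨v, by rw [ht]; ring⟩)
    refine no_simple (iw hi ι) hϖ hι (t := t * m) (s := ι (s * r))
      (fun h => (hϖ.dvd_or_dvd h).elim h4 hϖm) ?_ fun τ _ hτ => fix_D h τ hτ
    rw [hsr, ht]
    congr 1
    ring

/-- `δ` is one modulo four -/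
lemma four_of {w : PadicAlgCl 2} (hw : w ^ 2 = w - 2) {δ m : OO}
    (h5 : ‖em hw m - 5‖ ≤ 1 / 8)
    (h : ‖em hw δ - 1‖ ≤ 1 / 8 ∨ ‖em hw (δ * m) - 1‖ ≤ 1 / 8) : ‖em hw δ - 1‖ ≤ 1 / 4 := by
  rcases h with h | h
  · linarith
  · have hd := em_le hw δ
    have h1 : ‖em hw δ * (em hw m - 5)‖ ≤ 1 / 8 := by
      rw [norm_mul]
      have := norm_nonneg (em hw m - 5)
      nlinarith [norm_nonneg (em hw δ)]
    have h4 : ‖4 * em hw δ‖ ≤ 1 / 4 := by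
      rw [norm_mul, norm_four']
      linarith
    have e : em hw δ - 1 = ((em hw (δ * m) - 1) - em hw δ * (em hw m - 5)) - 4 * em hw δ := by
      rw [map_mul]
      ring
    rw [e]
    refine sub_le ?_ h4
    refine (sub_le h h1).trans (by norm_num)

/-- **The vanishing theorem over `K`.** -/
theorem core2 (hALG : S_ALG) (hREC : S_REC) {S : Finset OO}
    (hS : GoodS S) (h8 : (8 : OO) ∣ ∏ q ∈ S, q - 1) {ϖ ϖ' : OO} (cd : ChiD hi χ m r)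
    {w4 : ZMod 4} (hw4 : w4 ^ 2 = w4 - 2)
    (hcase : (m = -(s7 * ∏ q ∈ S, q) ∧ ϖ = om ∧ ϖ' = 1 - om ∧ w4 = 2) ∨
      (m = s7 * ∏ q ∈ S, q ∧ ϖ = 1 - om ∧ ϖ' = om ∧ w4 = 3))
    {c : GK i₀ → ℚ_[2]} (hc : Coc χ c)
    (hodd : ∀ (p : ℕ) [Fact p.Prime] (ι : QB →ₐ[ℚ] PadicAlgCl p), p ≠ 2 → CobOn χ (II ι) c)
    (hstr : ∀ ι : QB →ₐ[ℚ] PadicAlgCl 2, CobOn χ (DD ι) c) :
    ∃ y : ℚ_[2], ∀ σ, c σ = (vl χ σ - 1) * y := by
  by_contra hn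
  have hm5 : ∀ ι : QB →ₐ[ℚ] PadicAlgCl 2, ‖em (iw hi ι) ϖ‖ < 1 →
      ‖em (iw hi ι) m - 5‖ ≤ 1 / 8 := by
    intro ι hι
    rcases hcase with ⟨h1, h2, -, -⟩ | ⟨h1, h2, -, -⟩
    · rw [h1]; rw [h2] at hι
      exact (s7_five hi h8).1 hι
    · rw [h1]; rw [h2] at hι
      exact (s7_five hi h8).2 hι
  have hm6 : ∀ ι : QB →ₐ[ℚ] PadicAlgCl 2, ‖em (iw hi ι) ϖ'‖ < 1 →
      ‖em (iw hi ι) m - (-5 : ℤ)‖ ≤ 1 / 8 := by
    intro ι hι
    have key : ‖em (iw hi ι) (-m) - 5‖ ≤ 1 / 8 := by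
      rcases hcase with ⟨h1, -, h2, -⟩ | ⟨h1, -, h2, -⟩
      · rw [h1, neg_neg]; rw [h2] at hι
        exact (s7_five hi h8).2 hι
      · rw [h1]; rw [h2] at hι
        exact (s7_five hi h8).1 hι
    have e : em (iw hi ι) m - ((-5 : ℤ) : PadicAlgCl 2) = -(em (iw hi ι) (-m) - 5) := by
      rw [map_neg]; push_cast; ring
    rw [e, norm_neg]
    exact key
  have hϖp : Prime ϖ := by
    rcases hcase with ⟨-, rfl, -, -⟩ | ⟨-, rfl, -, -⟩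
    · exact prime_om
    · exact prime_om'
  have hϖp' : Prime ϖ' := by
    rcases hcase with ⟨-, -, rfl, -⟩ | ⟨-, -, rfl, -⟩
    · exact prime_om'
    · exact prime_om
  have hϖ2 : ϖ * ϖ' = 2 := by
    rcases hcase with ⟨-, rfl, rfl, -⟩ | ⟨-, rfl, rfl, -⟩
    · exact om_mul
    · rw [mul_comm]; exact om_mul
  obtain ⟨v, hv, hm⟩ : ∃ v : OO, (v = 1 ∨ v = -1) ∧ m = v * (s7 * ∏ q ∈ S, q) := by
    rcases hcase with ⟨h1, -, -, -⟩ | ⟨h1, -, -, -⟩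
    · exact ⟨-1, Or.inr rfl, by rw [h1]; ring⟩
    · exact ⟨1, Or.inl rfl, by rw [h1]; ring⟩
  have hv' : ∀ {π : OO}, Prime π → ¬ π ∣ v := by
    intro π hπ h
    rcases hv with h1 | h1
    · rw [h1] at h
      exact hπ.not_isUnit (isUnit_of_dvd_one h)
    · rw [h1, dvd_neg] at h
      exact hπ.not_isUnit (isUnit_of_dvd_one h)
  -- the first place
  obtain ⟨p, hpf, ι, hι⟩ := exists_emb hi hϖp
  have hp2 : p = 2 := by
    rw [ι_em] at hι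
    exact (two_of_dvd hϖp (iw hi ι) hι).2 ⟨_, hϖ2.symm⟩
  subst hp2
  have hι' : ‖em (iw hi ι) ϖ‖ < 1 := by rwa [ι_em] at hι
  -- the second place
  obtain ⟨p, hpf', ι₁, hι₁⟩ := exists_emb hi hϖp'
  have hp2 : p = 2 := by
    rw [ι_em] at hι₁
    exact (two_of_dvd hϖp' (iw hi ι₁) hι₁).2 ⟨_, by rw [mul_comm]; exact hϖ2.symm⟩
  subst hp2
  have hι₁' : ‖em (iw hi ι₁) ϖ'‖ < 1 := by rwa [ι_em] at hι₁
  -- an element that moves `r`
  obtain ⟨σ₁, hσD, hσ₁⟩ := exists_dec' hi (z := -5) (k := -3) (n := 1) (by norm_num)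
    (by norm_num) (by norm_num) (by norm_num) ι₁ (hm6 ι₁ hι₁') cd.hr
  have hϖm' : ¬ ϖ' ∣ m := by
    intro h
    have h1 := (dvd_iff (iw hi ι₁) hϖp' hι₁' m).1 h
    have h2 := hm6 ι₁ hι₁'
    have h3 : ‖((-5 : ℤ) : PadicAlgCl 2)‖ = 1 := odd_norm (by norm_num)
    have e : em (iw hi ι₁) m = ((-5 : ℤ) : PadicAlgCl 2) +
        (em (iw hi ι₁) m - ((-5 : ℤ) : PadicAlgCl 2)) := by ring
    have h4 : ‖em (iw hi ι₁) m‖ = 1 := by
      rw [e, eq_of_lt (lt_of_le_of_lt h2 (by rw [h3]; norm_num)), h3]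
    rw [h4] at h1
    exact lt_irrefl _ h1
  -- normalization
  obtain ⟨a, y, ha, hint, hmin⟩ := normalize hc (cd.big hi hσ₁) hn
  set c' : GK i₀ → ℚ_[2] := fun σ => a * c σ + (vl χ σ - 1) * y with hc'
  have hcc : Coc χ c' := hc.twist cd.cont a y
  have hodd' : ∀ (p : ℕ) [Fact p.Prime] (ι : QB →ₐ[ℚ] PadicAlgCl p), p ≠ 2 →
      CobOn χ (II ι) c' := fun p _ ι hp => (hodd p ι hp).twist a y
  have hstr' : ∀ ι : QB →ₐ[ℚ] PadicAlgCl 2, CobOn χ (DD ι) c' := fun ι => (hstr ι).twist a y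
  -- Kummer theory
  obtain ⟨δ, hδ, hkum⟩ := kum hi (md c') (md_cont hcc) (md_mul hcc hint)
  obtain ⟨s, hs⟩ : ∃ s : QB, s ^ 2 = em hi δ := IsAlgClosed.exists_pow_nat_eq _ (by norm_num)
  have hk : ∀ σ : GK i₀, σ s = s ↔ md c' σ = 0 := hkum s hs
  obtain ⟨hst1, hst2⟩ := loc_strict5 hi cd hint hϖp hι' (hm5 ι hι') (hstr' ι) hδ hs hk
  have hst3 := four_of (iw hi ι) (hm5 ι hι') hst2
  have hfr : ¬ ϖ' ∣ δ := loc_other hi cd hint hϖp' hι₁' hϖm' hσD hσ₁ (hstr' ι₁) hδ hs hk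
  -- the prime divisors of `δ`
  have hsup : ∀ π : OO, Prime π → π ∣ δ → ¬ π ∣ 2 → π ∣ m := by
    intro π hπ hπδ hπ2
    by_contra hπm
    obtain ⟨l, hl, κ, hκ⟩ := exists_emb hi hπ
    rw [ι_em] at hκ
    have hl2 : l ≠ 2 := fun h => hπ2 ((two_of_dvd hπ (iw hi κ) hκ).1 h)
    have h1 := unram hi cd hl2 (hodd' l κ hl2) ((dvd_iff (iw hi κ) hπ hκ m).not.1 hπm)
    refine not_dvd_of_fix (iw hi κ) hπ hκ hδ (s := κ s) ?_ ?_ hπδ
    · rw [← map_pow, hs, ι_em]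
    · intro τ hin hτ
      exact fix_I (fun σ hσ => (hk σ).2 (h1 σ hσ)) τ hin hτ
  -- the prime divisors of `m`
  have hloc := Mn.loc_all hi cd hS hv hm hcc hint hodd' hδ hs hk
  -- modulo four
  have h4a : (ϖ = om ∧ w4 = 2) ∨ (ϖ = 1 - om ∧ w4 = 3) := by
    rcases hcase with ⟨-, h1, -, h2⟩ | ⟨-, h1, -, h2⟩
    · exact Or.inl ⟨h1, h2⟩
    · exact Or.inr ⟨h1, h2⟩
  have hδ4 : em hw4 δ = 1 := em_four_one (iw hi ι) hw4 h4a hι' hst3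
  have hδ2 := hALG hREC S hS m ϖ ϖ' δ w4 hw4 hcase hδ hst1 hfr hδ4 hsup hloc
  rcases hδ2 with h | h
  · -- `δ = 1`
    rw [h, map_one] at hs
    obtain ⟨σ, hσ⟩ := hmin 0
    rw [mul_zero, sub_zero] at hσ
    apply hσ
    have h1 : σ s = s := by
      rcases sq_eq_one_iff.1 hs with h2 | h2
      · rw [h2, map_one]
      · rw [h2, map_neg, map_one]
    have h5 : ‖c' σ‖ < 1 := md_zero.1 ((hk σ).1 h1)
    exact h5
  · -- `δ = m`
    rw [h] at hs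
    have hsr : ∀ σ : GK i₀, σ s = s ↔ σ r = r := by
      intro σ
      have h1 : s ^ 2 = r ^ 2 := by rw [hs, cd.hr]
      rcases sq_eq_sq_iff_eq_or_eq_neg.1 h1 with h2 | h2
      · rw [h2]
      · rw [h2, map_neg, neg_inj]
    obtain ⟨σ, hσ⟩ := hmin (1 / 2)
    apply hσ
    have h2n : ‖(2 : ℚ_[2])‖ = 1 / 2 := Pool.Agent.R384.norm_two'
    have h3 : ‖(vl χ σ - 1) * (1 / 2)‖ = 2 * ‖vl χ σ - 1‖ := by
      rw [norm_mul, norm_div, norm_one, h2n]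
      ring
    by_cases h4 : md c' σ = 0
    · have h5 : ‖c' σ‖ < 1 := md_zero.1 h4
      have h6 := (cd.iff hi σ).2 ((hsr σ).1 ((hk σ).2 h4))
      have e : c' σ - (vl χ σ - 1) * (1 / 2) = c' σ + -((vl χ σ - 1) * (1 / 2)) := by ring
      have h7 : ‖c' σ - (vl χ σ - 1) * (1 / 2)‖ < 1 := by
        rw [e]
        refine add_lt' h5 ?_
        rw [norm_neg, h3]
        linarith
      exact h7
    · have h5 : ¬ ‖c' σ‖ < 1 := fun h => h4 (md_zero.2 h)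
      have h6 := (md_eq (hint σ)).1 h5
      have h7 : σ r = -r := by
        rcases rt_or hi cd.hr σ with h7 | h7
        · exact absurd ((hk σ).1 ((hsr σ).2 h7)) h4
        · exact h7
      have h8 := cd.big hi h7
      have h9 : ¬ ‖(vl χ σ - 1) * (1 / 2)‖ < 1 := by
        rw [h3, h8]
        norm_num
      have h10 := (md_eq (by rw [h3, h8]; norm_num)).1 h9
      have e : c' σ - (vl χ σ - 1) * (1 / 2) = (c' σ - 1) + -((vl χ σ - 1) * (1 / 2) - 1) := by ring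
      rw [e]
      exact add_lt' h6 (by rwa [norm_neg])

end Pool.Agent.NH6.SC
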