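import Pool.Agent.NH6.SC.Oct

/-!
# Multiquadratic base fields
-/

set_option autoImplicit false
set_option linter.unusedSectionVars false
set_option linter.unusedVariables false

namespace Pool.Agent.NH6.SC

open Pool.Agent.R384
open Pool.Agent.Y715.Red Pool.Agent.Y715.Nr Pool.Agent.W237.RK
open Pool.Agent.Y715.Gi (QB KK GK)
open Pool.Agent.Y715.Df (Cmp exists_cmp)
open Pool.Agent.NH57.BK

open scoped Classical

variable {i₀ : QB} (hi : i₀ ^ 2 = i₀ - 2)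

/-! ### The signs -/

lemma es_spec {s : QB} (hs0 : s ≠ 0) (hs : ∀ σ : GK i₀, σ s = s ∨ σ s = -s) (σ : GK i₀) :
    σ s = (((es hs0 hs σ : ℤˣ) : ℤ) : QB) * s := by
  rcases hs σ with h | h
  · rw [(es_one hs0 hs).2 h, h]
    simp
  · rw [(es_neg hs0 hs).2 h, h]
    simp

lemma es_uniq {s : QB} (hs0 : s ≠ 0) (hs : ∀ σ : GK i₀, σ s = s ∨ σ s = -s) {σ : GK i₀} {e : ℤˣ}
    (h : σ s = ((e : ℤ) : QB) * s) : es hs0 hs σ = e := by
  rcases Int.units_eq_one_or e with rfl | rfl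
  · rw [es_one]
    simpa using h
  · rw [es_neg]
    simpa using h

section mq

variable {n : ℕ} {s : Fin n → QB} (hs0 : ∀ i, s i ≠ 0)
  (hs : ∀ (i) (σ : GK i₀), σ (s i) = s i ∨ σ (s i) = -s i)

lemma sgc_prod {G : Type} [Group G] [TopologicalSpace G] (ε : Fin n → (G →* ℤˣ))
    (T : Finset (Fin n)) : (∏ i ∈ T, sgc (ε i) : G →* ℤ_[2]ˣ) = sgc (∏ i ∈ T, ε i) := by
  induction T using Finset.induction_on with
  | empty =>
    rw [Finset.prod_empty, Finset.prod_empty]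
    refine MonoidHom.ext fun σ => ?_
    unfold sgc
    simp
  | insert i T hiT ih =>
    rw [Finset.prod_insert hiT, Finset.prod_insert hiT, ih, sgc_mul]

/-- the character of the product -/
lemma es_prod {u v z : QB} (hu0 : u ≠ 0) (hu : ∀ σ : GK i₀, σ u = u ∨ σ u = -u)
    (hv0 : v ≠ 0) (hv : ∀ σ : GK i₀, σ v = v ∨ σ v = -v) (T : Finset (Fin n))
    (hz : ∀ σ : GK i₀, σ z = z) (hvz : v = u * (∏ i ∈ T, s i) * z) :
    es hv0 hv = es hu0 hu * ∏ i ∈ T, es (hs0 i) (hs i) := by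
  refine MonoidHom.ext fun σ => es_uniq hv0 hv ?_
  have h1 : σ (∏ i ∈ T, s i) = (((∏ i ∈ T, es (hs0 i) (hs i)) σ : ℤˣ) : ℤ) * (∏ i ∈ T, s i) := by
    rw [map_prod, MonoidHom.finsetProd_apply, Units.coe_prod, Int.cast_prod,
      ← Finset.prod_mul_distrib]
    exact Finset.prod_congr rfl fun i _ => es_spec (hs0 i) (hs i) σ
  rw [hvz, map_mul, map_mul, h1, hz, es_spec hu0 hu σ, MonoidHom.mul_apply, Units.val_mul,
    Int.cast_mul]
  ring

theorem vanB_all : ∀ (A : Finset (Fin n)) (χ : GK i₀ →* ℤ_[2]ˣ),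
    (∀ T ⊆ A, VanB (χ * ∏ i ∈ T, sgc (es (hs0 i) (hs i))) ⊤) →
      VanB χ (fixs s A) := by
  intro A
  induction A using Finset.induction_on with
  | empty =>
    intro χ h
    have h1 := h ∅ (Finset.Subset.refl _)
    rw [Finset.prod_empty, mul_one] at h1
    have e : (fixs s ∅ : Subgroup (GK i₀)) = ⊤ := by
      ext σ
      exact ⟨fun _ => trivial, fun _ i hi' => absurd hi' (Finset.notMem_empty i)⟩
    rwa [e]
  | insert i A hiA ih =>
    intro χ h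
    have e : (fixs s (insert i A) : Subgroup (GK i₀)) = kr (es (hs0 i) (hs i)) (fixs s A) := by
      ext σ
      constructor
      · intro h1
        exact mem_kr.2 ⟨fun j hj => h1 j (Finset.mem_insert_of_mem hj),
          (es_one (hs0 i) (hs i)).2 (h1 i (Finset.mem_insert_self _ _))⟩
      · intro h1 j hj
        obtain ⟨h2, h3⟩ := mem_kr.1 h1
        rcases Finset.mem_insert.1 hj with rfl | hj
        · exact (es_one (hs0 j) (hs j)).1 h3
        · exact h2 j hj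
    rw [e]
    refine VanB.step (es_open (hs0 i) (hs i)) (ih χ fun T hT =>
      h T (hT.trans (Finset.subset_insert _ _))) (ih _ fun T hT => ?_)
    have h1 := h (insert i T) (Finset.insert_subset_insert _ hT)
    rw [Finset.prod_insert (fun h => hiA (hT h)), ← mul_assoc] at h1
    exact h1

include hs0 hs in
/-- the twists by `√m` over multiquadratic fields -/
theorem van_tw {E : Fin n → OO} (hE : ∀ i, s i ^ 2 = em hi (E i)) {D : OO}
    (hT : ∀ T : Finset (Fin n), ∃ P z : OO, Tw i₀ hi P ∧ P ≠ 0 ∧ z ≠ 0 ∧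
      D * ∏ i ∈ T, E i = P * z ^ 2)
    {v : OO} (hv : v = 1 ∨ v = -1) {u : QB} (hu0 : u ≠ 0)
    (hu : ∀ σ : GK i₀, σ u = u ∨ σ u = -u) (hu2 : u ^ 2 = em hi (v * (s7 * D))) (k : ℤ) :
    VanB (cyc i₀ ^ k * sgc (es hu0 hu)) (fixs s Finset.univ) := by
  refine vanB_all hs0 hs Finset.univ _ fun T _ => ?_
  obtain ⟨P, z, hTw, hP0, hz0, hz⟩ := hT T
  have hz1 : em hi z ≠ 0 := em_ne hi hz0
  set w : QB := u * (∏ i ∈ T, s i) * (em hi z)⁻¹ with hw
  have hw2 : w ^ 2 = em hi (v * (s7 * P)) := by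
    rw [hw, mul_pow, mul_pow, hu2, ← Finset.prod_pow, Finset.prod_congr rfl (fun i _ => hE i),
      ← map_prod, ← map_mul]
    have e : v * (s7 * D) * ∏ i ∈ T, E i = v * (s7 * P) * z ^ 2 := by
      linear_combination (v * s7) * hz
    rw [e, map_mul, map_pow]
    field_simp
  have hw0 : w ≠ 0 :=
    mul_ne_zero (mul_ne_zero hu0 (Finset.prod_ne_zero_iff.2 fun i _ => hs0 i)) (inv_ne_zero hz1)
  have hws : ∀ σ : GK i₀, σ w = w ∨ σ w = -w := rt_or hi hw2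
  have he := es_prod hs0 hs hu0 hu hw0 hws T (z := (em hi z)⁻¹)
    (fun σ => by rw [map_inv₀, gk_em]) hw
  have e : cyc i₀ ^ k * sgc (es hu0 hu) * ∏ i ∈ T, sgc (es (hs0 i) (hs i)) =
      cyc i₀ ^ k * sgc (es hw0 hws) := by
    rw [he, sgc_mul, sgc_prod]
    refine MonoidHom.ext fun σ => ?_
    exact mul_assoc _ _ _
  rw [e]
  have hd : v * (s7 * P) = s7 * P ∨ v * (s7 * P) = -(s7 * P) := by
    rcases hv with h | h
    · left; rw [h, one_mul]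
    · right; rw [h]; ring
  exact hTw _ hd w hw0 hws hw2 k

end mq

/-! ### The classes that come from the base field -/

/-- if the twisted group is zero all the classes come from the base field -/
theorem VanB.new {χ : GK i₀ →* ℤ_[2]ˣ} {ε : GK i₀ →* ℤˣ} {G' : Subgroup (GK i₀)}
    (hop : ∀ u : ℤˣ, IsOpen {g | ε g = u}) (h2 : VanB (χ * sgc ε) G')
    {c : GK i₀ → ℚ_[2]} (hc : CocOn χ (kr ε G') c)
    (hodd : ∀ (p : ℕ) [Fact p.Prime] (ι : QB →ₐ[ℚ] PadicAlgCl p), p ≠ 2 →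
      ∃ y : ℚ_[2], ∀ σ ∈ II ι, σ ∈ kr ε G' → c σ = (vl χ σ - 1) * y)
    (hstr : ∀ ι : QB →ₐ[ℚ] PadicAlgCl 2,
      ∃ y : ℚ_[2], ∀ σ ∈ DD ι, σ ∈ kr ε G' → c σ = (vl χ σ - 1) * y) :
    ∃ b : GK i₀ → ℚ_[2], CocOn χ G' b ∧
      (∀ (p : ℕ) [Fact p.Prime] (ι : QB →ₐ[ℚ] PadicAlgCl p), p ≠ 2 →
        ∃ y : ℚ_[2], ∀ σ ∈ II ι, σ ∈ G' → b σ = (vl χ σ - 1) * y) ∧
      (∀ ι : QB →ₐ[ℚ] PadicAlgCl 2,
        ∃ y : ℚ_[2], ∀ σ ∈ DD ι, σ ∈ G' → b σ = (vl χ σ - 1) * y) ∧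
      ∃ y : ℚ_[2], ∀ σ ∈ kr ε G', c σ = b σ + (vl χ σ - 1) * y := by
  by_cases hG : ∃ t ∈ G', ε t = -1
  · obtain ⟨t, ht, hε⟩ := hG
    have hc' : ∀ σ ∈ kr ε G', ∀ τ ∈ kr ε G', c (σ * τ) = c σ + vl (χ * sgc ε) σ * c τ := by
      intro σ hσ τ hτ
      rw [vl_sgc_pos (mem_kr.1 hσ).2]
      exact hc.mul σ hσ τ hτ
    have g1 : CocOn χ G' (cor χ ε t c) := ⟨cor_cont ht hε hop hc.cont,
        fun σ hσ τ hτ => cor_mul ht hε hc.mul hσ hτ⟩
    have g2 : ∀ (p : ℕ) [Fact p.Prime] (ι : QB →ₐ[ℚ] PadicAlgCl p), p ≠ 2 →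
        ∃ y : ℚ_[2], ∀ σ ∈ II ι, σ ∈ G' → cor χ ε t c σ = (vl χ σ - 1) * y := by
      intro p _ ι hp
      obtain ⟨y, hy⟩ := hodd p ι hp
      obtain ⟨y', hy'⟩ := hodd p (cι ι t) hp
      exact cor_loc (I := IIs ι) ht hε hc.mul (fun σ h3 h4 => hy σ h3 h4) (fun σ h3 h4 => by
        rw [hy' _ (II_conj h3) (conj_kr ht hε h4), vl_conj])
    have g3 : ∀ ι : QB →ₐ[ℚ] PadicAlgCl 2,
        ∃ y : ℚ_[2], ∀ σ ∈ DD ι, σ ∈ G' → cor χ ε t c σ = (vl χ σ - 1) * y := by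
      intro ι
      obtain ⟨y, hy⟩ := hstr ι
      obtain ⟨y', hy'⟩ := hstr (cι ι t)
      exact cor_loc (I := DDs ι) ht hε hc.mul (fun σ h3 h4 => hy σ h3 h4) (fun σ h3 h4 => by
        rw [hy' _ (DD_conj h3) (conj_kr ht hε h4), vl_conj])
    obtain ⟨y₂, hy₂⟩ := h2 (cor (χ * sgc ε) ε t c) ⟨cor_cont ht hε hop hc.cont,
        fun σ hσ τ hτ => cor_mul ht hε hc' hσ hτ⟩ (by
      intro p _ ι hp
      obtain ⟨y, hy⟩ := hodd p ι hp
      obtain ⟨y', hy'⟩ := hodd p (cι ι t) hp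
      exact cor_loc (I := IIs ι) ht hε hc' (fun σ h3 h4 => by
        rw [vl_sgc_pos (mem_kr.1 h4).2]
        exact hy σ h3 h4) (fun σ h3 h4 => by
        rw [vl_sgc_pos (mem_kr.1 h4).2, hy' _ (II_conj h3) (conj_kr ht hε h4), vl_conj])) (by
      intro ι
      obtain ⟨y, hy⟩ := hstr ι
      obtain ⟨y', hy'⟩ := hstr (cι ι t)
      exact cor_loc (I := DDs ι) ht hε hc' (fun σ h3 h4 => by
        rw [vl_sgc_pos (mem_kr.1 h4).2]
        exact hy σ h3 h4) (fun σ h3 h4 => by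
        rw [vl_sgc_pos (mem_kr.1 h4).2, hy' _ (DD_conj h3) (conj_kr ht hε h4), vl_conj]))
    have hmul : ∀ (a : ℚ_[2]) (y z : ℚ_[2]), a = y * z → a / 2 = y * (z / 2) := by
      intro a y z h
      rw [h]; ring
    refine ⟨fun σ => cor χ ε t c σ / 2, ⟨g1.cont.div_const 2, fun σ hσ τ hτ => by
      rw [g1.mul σ hσ τ hτ]; ring⟩, fun p _ ι hp => ?_, fun ι => ?_, ⟨y₂ / 2, fun σ hσ => ?_⟩⟩
    · obtain ⟨y, hy⟩ := g2 p ι hp
      exact ⟨y / 2, fun σ h3 h4 => hmul _ _ _ (hy σ h3 h4)⟩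
    · obtain ⟨y, hy⟩ := g3 ι
      exact ⟨y / 2, fun σ h3 h4 => hmul _ _ _ (hy σ h3 h4)⟩
    · obtain ⟨g4, g5⟩ := mem_kr.1 hσ
      have e2 := hy₂ σ g4
      show c σ = cor χ ε t c σ / 2 + (vl χ σ - 1) * (y₂ / 2)
      unfold cor at e2 ⊢
      rw [if_pos g5] at e2 ⊢
      rw [vl_sgc_neg hε, vl_sgc_pos g5] at e2
      linear_combination e2 / 2
  · push Not at hG
    have e : kr ε G' = G' := by
      ext σ
      constructor
      · exact fun h => (mem_kr.1 h).1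
      · intro h
        refine mem_kr.2 ⟨h, ?_⟩
        rcases Int.units_eq_one_or (ε σ) with h3 | h3
        · exact h3
        · exact absurd h3 (hG σ h)
    rw [e] at hc hodd hstr ⊢
    exact ⟨c, hc, hodd, hstr, 0, fun σ _ => by ring⟩

end Pool.Agent.NH6.SC
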