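import Pool.Agent.NH6.SC.Fld

/-!
# The fields between `K` and `K(√-1, √m)`
-/

set_option autoImplicit false
set_option linter.unusedSectionVars false
set_option linter.unusedVariables false

namespace Pool.Agent.NH6.SC

open Pool.Agent.R384
open Pool.Agent.Y715.Red Pool.Agent.Y715.Nr Pool.Agent.W237.RK
open Pool.Agent.Y715.Gi (QB KK GK)
open Pool.Agent.Y715.Df (Cmp exists_cmp)
open Pool.Agent.NH57.BK

open scoped Classical

variable {i₀ : QB} (hi : i₀ ^ 2 = i₀ - 2)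

lemma sgc_mul {G : Type} [Group G] [TopologicalSpace G] (a b : G →* ℤˣ) :
    (sgc (a * b) : G →* ℤ_[2]ˣ) = sgc a * sgc b := by
  unfold sgc
  exact MonoidHom.comp_mul _ _ _

lemma es_mul {s t : QB} (hs0 : s ≠ 0) (hs : ∀ σ : GK i₀, σ s = s ∨ σ s = -s) (ht0 : t ≠ 0)
    (ht : ∀ σ : GK i₀, σ t = t ∨ σ t = -t) (hst0 : t * s ≠ 0)
    (hst : ∀ σ : GK i₀, σ (t * s) = t * s ∨ σ (t * s) = -(t * s)) :
    es hst0 hst = es ht0 ht * es hs0 hs := by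
  ext σ
  rw [MonoidHom.mul_apply]
  rcases hs σ with h1 | h1 <;> rcases ht σ with h2 | h2
  · rw [(es_one hs0 hs).2 h1, (es_one ht0 ht).2 h2,
      (es_one hst0 hst).2 (by rw [map_mul, h1, h2])]
    rfl
  · rw [(es_one hs0 hs).2 h1, (es_neg ht0 ht).2 h2,
      (es_neg hst0 hst).2 (by rw [map_mul, h1, h2, neg_mul])]
    rfl
  · rw [(es_neg hs0 hs).2 h1, (es_one ht0 ht).2 h2,
      (es_neg hst0 hst).2 (by rw [map_mul, h1, h2, mul_neg])]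
    rfl
  · rw [(es_neg hs0 hs).2 h1, (es_neg ht0 ht).2 h2,
      (es_one hst0 hst).2 (by rw [map_mul, h1, h2, neg_mul_neg])]
    rfl

/-- the root of `-1` is fixed by the inertia groups of the odd places -/
lemma unr_i {I : QB} (hI : I ^ 2 = -1) (hI0 : I ≠ 0) (hIor : ∀ σ : GK i₀, σ I = I ∨ σ I = -I)
    (k : ℤ) : Unr (cyc i₀ ^ k * sgc (es hI0 hIor) : GK i₀ →* ℤ_[2]ˣ) := by
  intro p _ ι hp σ hσ
  obtain ⟨τ, hc, hin⟩ := hσ
  have h1 : σ I = I := fixI' hI hp hc hin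
  have h2 : (cyc i₀ ^ k : GK i₀ →* ℤ_[2]ˣ) σ = 1 := cyc_unr k p ι hp σ ⟨τ, hc, hin⟩
  rw [MonoidHom.mul_apply, h2, sgc_one ((es_one hI0 hIor).2 h1), one_mul]

lemma cont_i {I : QB} (hI0 : I ≠ 0) (hIor : ∀ σ : GK i₀, σ I = I ∨ σ I = -I) (k : ℤ) :
    Continuous (cyc i₀ ^ k * sgc (es hI0 hIor) : GK i₀ →* ℤ_[2]ˣ) := by
  have h1 : Continuous fun σ => (cyc i₀ σ) ^ k * sgc (es hI0 hIor) σ :=
    ((cyc_cont i₀).zpow k).mul (cont_sgc (es_open hI0 hIor))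
  exact h1

/-- the Galois group over `K(I, s)` -/
noncomputable def HH {I s : QB} (hI0 : I ≠ 0) (hIor : ∀ σ : GK i₀, σ I = I ∨ σ I = -I)
    (hs0 : s ≠ 0) (hs : ∀ σ : GK i₀, σ s = s ∨ σ s = -s) : Subgroup (GK i₀) :=
  kr (es hs0 hs) (kr (es hI0 hIor) ⊤)

lemma mem_HH {I s : QB} (hI0 : I ≠ 0) (hIor : ∀ σ : GK i₀, σ I = I ∨ σ I = -I)
    (hs0 : s ≠ 0) (hs : ∀ σ : GK i₀, σ s = s ∨ σ s = -s) {σ : GK i₀} :
    σ ∈ HH hI0 hIor hs0 hs ↔ σ I = I ∧ σ s = s := by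
  unfold HH
  rw [mem_kr, mem_kr, es_one, es_one]
  simp

/-- **The vanishing over `K(√-1, √m)`.** -/
theorem van_HH {P : OO} (hT : Tw i₀ hi P) {I s : QB} (hI : I ^ 2 = -1)
    (hsd : s ^ 2 = em hi (s7 * P)) (hI0 : I ≠ 0)
    (hIor : ∀ σ : GK i₀, σ I = I ∨ σ I = -I)
    (hs0 : s ≠ 0) (hs : ∀ σ : GK i₀, σ s = s ∨ σ s = -s) (k : ℤ) :
    VanB (cyc i₀ ^ k) (HH hI0 hIor hs0 hs) := by
  have hu : VanB (cyc i₀ ^ k) (kr (es hI0 hIor) (⊤ : Subgroup (GK i₀))) :=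
    VanB.step (es_open hI0 hIor) (vanB_unr hi (cyc_pow_cont k) (cyc_unr k))
      (vanB_unr hi (cont_i hI0 hIor k) (unr_i hI hI0 hIor k))
  refine VanB.step (es_open hs0 hs) hu ?_
  have hIs0 : I * s ≠ 0 := mul_ne_zero hI0 hs0
  have hIs : (I * s) ^ 2 = em hi (-(s7 * P)) := by
    rw [mul_pow, hI, hsd, map_neg]; ring
  have hIsor : ∀ σ : GK i₀, σ (I * s) = I * s ∨ σ (I * s) = -(I * s) := rt_or hi hIs
  refine VanB.step (es_open hI0 hIor)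
    (hT _ (Or.inl rfl) s hs0 hs hsd k) ?_
  have e : cyc i₀ ^ k * sgc (es hs0 hs) * sgc (es hI0 hIor) = cyc i₀ ^ k * sgc (es hIs0 hIsor) := by
    rw [es_mul hs0 hs hI0 hIor hIs0 hIsor, sgc_mul]
    refine MonoidHom.ext fun σ => ?_
    show (cyc i₀ ^ k : GK i₀ →* ℤ_[2]ˣ) σ * sgc (es hs0 hs) σ * sgc (es hI0 hIor) σ =
      (cyc i₀ ^ k : GK i₀ →* ℤ_[2]ˣ) σ * (sgc (es hI0 hIor) σ * sgc (es hs0 hs) σ)
    rw [mul_assoc, mul_comm (sgc (es hs0 hs) σ)]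
  rw [e]
  exact hT _ (Or.inr rfl) (I * s) hIs0 hIsor hIs k

include hi in
/-- there are elements of the decomposition groups that fix `I` and `s` and on which the powers of the
cyclotomic character are not trivial -/
theorem exists_cyc_ne2 {I s : QB} (hIor : ∀ σ : GK i₀, σ I = I ∨ σ I = -I)
    (hs : ∀ σ : GK i₀, σ s = s ∨ σ s = -s) (ι : QB →ₐ[ℚ] PadicAlgCl 2) {k : ℤ} (hk : k ≠ 0) :
    ∃ σ ∈ (DD ι : Set (GK i₀)), σ I = I ∧ σ s = s ∧ (cyc i₀ σ) ^ k ≠ 1 := by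
  obtain ⟨z, hz⟩ := exists_mu8
  obtain ⟨σ, h1, h2⟩ := exists_sqrt2 hi ι hz
  obtain ⟨h3, h4⟩ := cyc_ne hz h2
  refine ⟨σ * σ, (DDs ι).mul_mem h1 h1, ?_, ?_, ?_⟩
  · rw [AlgEquiv.mul_apply]
    rcases hIor σ with h | h
    · rw [h, h]
    · rw [h, map_neg, h, neg_neg]
  · rw [AlgEquiv.mul_apply]
    rcases hs σ with h | h
    · rw [h, h]
    · rw [h, map_neg, h, neg_neg]
  · rw [map_mul]
    have e : (cyc i₀ σ * cyc i₀ σ) ^ k = (cyc i₀ σ) ^ (2 * k) := by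
      rw [zpow_mul, zpow_ofNat, pow_two]
    rw [e]
    exact inf_order h3 h4 hk

/-- **The vanishing over all the fields between `K` and `K(√-1, √m)`.** -/
theorem van_sub {P : OO} (hT : Tw i₀ hi P) {I s : QB} (hI : I ^ 2 = -1)
    (hsd : s ^ 2 = em hi (s7 * P)) (hI0 : I ≠ 0)
    (hIor : ∀ σ : GK i₀, σ I = I ∨ σ I = -I)
    (hs0 : s ≠ 0) (hs : ∀ σ : GK i₀, σ s = s ∨ σ s = -s) {k : ℤ} (hk : k ≠ 0)
    {H : Subgroup (GK i₀)} (hH : HH hI0 hIor hs0 hs ≤ H) (ι : QB →ₐ[ℚ] PadicAlgCl 2) :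
    VanB (cyc i₀ ^ k) H := by
  obtain ⟨x, -, h1, h2, h3⟩ := exists_cyc_ne2 hi hIor hs ι hk
  refine VanB.down hH ?_ ((mem_HH hI0 hIor hs0 hs).2 ⟨h1, h2⟩) ?_
    (van_HH hi hT hI hsd hI0 hIor hs0 hs k)
  · intro g _ x hx
    rw [mem_HH] at hx ⊢
    have key : ∀ z : QB, (g z = z ∨ g z = -z) → x z = z → (g⁻¹ * x * g) z = z := by
      intro z hz hxz
      rw [AlgEquiv.mul_apply, AlgEquiv.mul_apply]
      have e : x (g z) = g z := by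
        rcases hz with h | h
        · rw [h, hxz]
        · rw [h, map_neg, hxz]
      rw [e, ← AlgEquiv.mul_apply g⁻¹ g, inv_mul_cancel, AlgEquiv.one_apply]
    exact ⟨key I (hIor g) hx.1, key s (hs g) hx.2⟩
  · intro h
    apply h3
    have h4 : (((cyc i₀ x) ^ k : ℤ_[2]ˣ) : ℤ_[2]) = 1 := by
      have h5 : ((((cyc i₀ x) ^ k : ℤ_[2]ˣ) : ℤ_[2]) : ℚ_[2]) = ((1 : ℤ_[2]) : ℚ_[2]) := by
        rw [PadicInt.coe_one]
        exact h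
      exact Subtype.ext h5
    exact Units.ext h4

end Pool.Agent.NH6.SC
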